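import Pool.Agent.Helper40_Dio.FStmt

/-! DIO (MP_9ca527_nt), module BR1: for `μ = ν = 1`, `ε = -1` the lower extension is `g`. -/

set_option autoImplicit false

namespace Pool.Agent.DIO.H98

open Pool.Agent.DIO

/-- Bounds for `e = d₋(a, c, f)`. -/
private lemma br1_bound (a c f s F W e : ℤ) (ha : 0 < a) (hac : 12 * a < c) (hf : 0 < f)
    (hfc : 4 * f < c) (hs0 : 0 ≤ s) (hF0 : 0 ≤ F) (hW0 : 0 ≤ W) (hs : s * s = a * c + 1)
    (hF : F * F = a * f + 1) (hW : W * W = c * f + 1)
    (he : e = a + c + f + 2 * a * c * f - 2 * s * F * W) : 0 ≤ e ∧ 4 * e ≤ c := by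
  have hc : 12 < c := by nlinarith
  -- `s F W ≥ a c f`
  have h1 : a * c * f ≤ s * F * W := by
    have h2 : (a * c * f) ^ 2 ≤ (s * F * W) ^ 2 := by
      have e1 : (s * F * W) ^ 2 = (a * c + 1) * (a * f + 1) * (c * f + 1) := by
        rw [← hs, ← hF, ← hW]; ring
      rw [e1]
      have p1 : 0 < a * c := by positivity
      have p2 : 0 < a * f := by positivity
      have p3 : 0 < c * f := by positivity
      have e2 : (a * c + 1) * (a * f + 1) * (c * f + 1) = (a * c * f) ^ 2 +
          (a * c * (a * f) + a * c * (c * f) + a * f * (c * f) + a * c + a * f + c * f + 1) := by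
        ring
      rw [e2]
      have p4 : 0 < a * c * (a * f) := by positivity
      have p5 : 0 < a * c * (c * f) := by positivity
      have p6 : 0 < a * f * (c * f) := by positivity
      linarith
    exact le_of_sq_le_sq h2 (by positivity)
  have hD : e * (a + c + f + 2 * a * c * f + 2 * (s * F * W)) =
      (c - a - f) ^ 2 - 4 * a * f - 4 := by
    have e1 : (s * F * W) ^ 2 = (a * c + 1) * (a * f + 1) * (c * f + 1) := by
      rw [← hs, ← hF, ← hW]; ring
    rw [he]
    linear_combination (-4) * e1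
  have hacf : 0 < a * c * f := by positivity
  set D := a + c + f + 2 * a * c * f + 2 * (s * F * W) with hDdef
  have hDpos : 0 < D := by
    have : 0 ≤ s * F * W := by positivity
    have : 2 * a * c * f = 2 * (a * c * f) := by ring
    rw [hDdef]; linarith
  have hDge : 4 * (a * c * f) ≤ D := by
    have : 2 * a * c * f = 2 * (a * c * f) := by ring
    rw [hDdef]; linarith
  constructor
  · -- the numerator is positive
    have h3 : 0 < (c - a - f) ^ 2 - 4 * a * f - 4 := by
      have h4 : 2 * c < 3 * (c - a - f) := by linarith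
      have h5 : (2 * c) ^ 2 < (3 * (c - a - f)) ^ 2 := by
        apply pow_lt_pow_left₀ h4 (by linarith) (by norm_num)
      have h6 : (12 * a) * (4 * f) < c * c := by
        apply mul_lt_mul'' hac hfc (by linarith) (by linarith)
      nlinarith
    by_contra hneg
    have h7 : e * D < 0 := mul_neg_of_neg_of_pos (by linarith) hDpos
    rw [hD] at h7
    linarith
  · -- `e * 4 a c f ≤ c²`
    by_contra hgt
    push Not at hgt
    have h3 : c * (a * c * f) < 4 * e * (a * c * f) := mul_lt_mul_of_pos_right hgt hacf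
    have he0 : 0 < e := by linarith
    have h4 : e * (4 * (a * c * f)) ≤ e * D := mul_le_mul_of_nonneg_left hDge he0.le
    rw [hD] at h4
    have h5 : (c - a - f) ^ 2 - 4 * a * f - 4 ≤ c ^ 2 := by
      have h6 : 0 ≤ c - a - f := by linarith
      have h7 : c - a - f ≤ c := by linarith
      have h8 : (c - a - f) ^ 2 ≤ c ^ 2 := pow_le_pow_left₀ h6 h7 2
      have : 0 < a * f := by positivity
      nlinarith
    have h6 : c ^ 2 ≤ c * (a * c * f) := by
      have : 1 ≤ a * f := by nlinarith
      nlinarith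
    nlinarith

theorem br1 (hMCE : MceStatement) : Br1Statement := by
  intro a b c r s t g u v w x y z f W F1 F2 hab hbc hN hT hf
  have hT' := hT
  obtain ⟨-, hW, hF1, hF2, hfc, -, -, -, -⟩ := hT'
  set e1 : ℤ := a + c + f + 2 * a * c * f - 2 * s * F1 * W with he1
  set e2 : ℤ := b + c + f + 2 * b * c * f - 2 * t * F2 * W with he2
  have hdvd := hMCE a b c s t x y z f W F1 F2 (-1) e1 e2 1 1 hN.hs hN.ht hT he1 he2
  have hWZ : (W : ℤ) * W = c * f + 1 := by exact_mod_cast hW
  have hF1Z : (F1 : ℤ) * F1 = a * f + 1 := by exact_mod_cast hF1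
  have hF2Z : (F2 : ℤ) * F2 = b * f + 1 := by exact_mod_cast hF2
  have hsZ : (s : ℤ) * s = a * c + 1 := by exact_mod_cast hN.hs
  have htZ : (t : ℤ) * t = b * c + 1 := by exact_mod_cast hN.ht
  have hrZ : (r : ℤ) * r = a * b + 1 := by exact_mod_cast hN.hr
  have ha0 : (0 : ℤ) < a := by exact_mod_cast hN.ha
  have hb0 : (0 : ℤ) < b := by exact_mod_cast hN.hb
  have hg0 : 0 < g := hN.hg
  have hf0 : (0 : ℤ) < f := by exact_mod_cast hf
  have hfcZ : 4 * (f : ℤ) < c := by exact_mod_cast hfc
  have habZ : (a : ℤ) < b := by exact_mod_cast hab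
  -- `12 b < c`
  have hag : 3 ≤ a * g := by
    have h1 : u * u = a * g + 1 := hN.hu
    have h2 : 1 ≤ a * g := Nat.mul_pos hN.ha hg0
    have h3 : 2 ≤ u := by
      by_contra h
      have : u ≤ 1 := by omega
      have : u * u ≤ 1 * 1 := Nat.mul_le_mul this this
      omega
    have : 2 * 2 ≤ u * u := Nat.mul_le_mul h3 h3
    omega
  have hbc12 : 12 * b < c := by
    have h1 := hN.c_gt
    have h2 : a * b * g = a * g * b := by ring
    rw [h2] at h1
    nlinarith
  have hb12 : 12 * (b : ℤ) < c := by exact_mod_cast hbc12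
  have ha12 : 12 * (a : ℤ) < c := by linarith
  obtain ⟨p1, p2⟩ := br1_bound a c f s F1 W e1 ha0 ha12 hf0 hfcZ (by positivity) (by positivity)
    (by positivity) hsZ hF1Z hWZ he1
  obtain ⟨p3, p4⟩ := br1_bound b c f t F2 W e2 hb0 hb12 hf0 hfcZ (by positivity) (by positivity)
    (by positivity) htZ hF2Z hWZ he2
  -- the exact relation
  have hrel : (b : ℤ) - a - (e1 - e2) = 0 := by
    have h1 : (c : ℤ) ∣ (b : ℤ) - a - (e1 - e2) := by
      convert hdvd using 1
      push_cast
      ring
    apply Int.eq_zero_of_abs_lt_dvd h1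
    rw [abs_lt]
    constructor <;> linarith
  have hW1 : (W : ℤ) ≠ 0 := by
    intro h
    rw [h] at hWZ
    have : (0 : ℤ) < c * f := by nlinarith
    linarith
  have hkap : (t : ℤ) * F2 - b * W = s * F1 - a * W := by
    have h1 : 2 * (W : ℤ) * (t * F2 - s * F1) = 2 * W * ((b - a) * W) := by
      have : 2 * (W : ℤ) * (t * F2 - s * F1) - 2 * (b - a) * (c * f + 1) =
          -((b : ℤ) - a - (e1 - e2)) := by
        rw [he1, he2]; ring
      rw [hrel] at this
      linear_combination this - 2 * ((b : ℤ) - a) * hWZ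
    have h2 : (t : ℤ) * F2 - s * F1 = (b - a) * W :=
      mul_left_cancel₀ (mul_ne_zero two_ne_zero hW1) h1
    linarith
  have hk1 : ((s : ℤ) * F1 - a * W) ^ 2 = a * e1 + 1 := by
    rw [he1]
    linear_combination (F1 : ℤ) * F1 * hsZ + ((a : ℤ) * c + 1) * hF1Z + (a : ℤ) ^ 2 * hWZ
  have hk2 : ((t : ℤ) * F2 - b * W) ^ 2 = b * e2 + 1 := by
    rw [he2]
    linear_combination (F2 : ℤ) * F2 * htZ + ((b : ℤ) * c + 1) * hF2Z + (b : ℤ) ^ 2 * hWZ
  have he2a : e2 = a := by
    rw [hkap, hk1] at hk2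
    have h1 : ((b : ℤ) - a) * e2 = (b - a) * a := by
      have h3 : e1 = e2 + (b - a) := by linarith
      rw [h3] at hk2
      linarith
    exact mul_left_cancel₀ (by linarith) h1
  have he1b : e1 = b := by linarith
  -- `f` is a root of the quadratic
  have hgZ : (g : ℤ) = a + b + c + 2 * a * b * c - 2 * (r * s * t) := by
    have h1 : (u : ℤ) + a * t = r * s := by exact_mod_cast hN.u_eq'
    have h2 : (u : ℤ) * u = a * g + 1 := by exact_mod_cast hN.hu
    have h3 : (a : ℤ) * g = a * (a + b + c + 2 * a * b * c - 2 * (r * s * t)) := by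
      have h4 : (u : ℤ) = r * s - a * t := by linarith
      rw [h4] at h2
      linear_combination -h2 + (s : ℤ) * s * hrZ + ((a : ℤ) * b + 1) * hsZ + (a : ℤ) ^ 2 * htZ
    exact mul_left_cancel₀ (by linarith) h3
  have hq : ((a : ℤ) + b + c + 2 * a * b * c - f) ^ 2 = (2 * (r * s * t)) ^ 2 := by
    have h1 : (2 * ((s : ℤ) * F1 * W)) ^ 2 = (a + c + f + 2 * a * c * f - b) ^ 2 := by
      congr 1
      linarith [he1b, he1]
    have h2 : ((s : ℤ) * F1 * W) ^ 2 = (a * c + 1) * (a * f + 1) * (c * f + 1) := by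
      rw [← hsZ, ← hF1Z, ← hWZ]; ring
    have h3 : ((r : ℤ) * s * t) ^ 2 = (a * b + 1) * (a * c + 1) * (b * c + 1) := by
      rw [← hrZ, ← hsZ, ← htZ]; ring
    have h4 : 4 * (((a : ℤ) * c + 1) * (a * f + 1) * (c * f + 1)) =
        (a + c + f + 2 * a * c * f - b) ^ 2 := by
      rw [← h2, ← h1]; ring
    have h5 : (2 * ((r : ℤ) * s * t)) ^ 2 = 4 * ((a * b + 1) * (a * c + 1) * (b * c + 1)) := by
      rw [← h3]; ring
    rw [h5]
    linear_combination -h4
  have hfin : (a : ℤ) + b + c + 2 * a * b * c - f = 2 * (r * s * t) := by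
    have h1 : (0 : ℤ) ≤ a + b + c + 2 * a * b * c - f := by
      have : (0 : ℤ) ≤ 2 * a * b * c := by positivity
      linarith
    have h2 : (0 : ℤ) ≤ 2 * (r * s * t) := by positivity
    exact (pow_left_inj₀ h1 h2 two_ne_zero).1 hq
  have : (f : ℤ) = g := by rw [hgZ]; linarith
  exact_mod_cast this

end Pool.Agent.DIO.H98
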