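import Pool.Agent.Helper40_Dio.FStmt

/-! DIO (MP_9ca527_nt), module PRM: an irregular quadruple with large third element is of the
remaining type. -/

set_option autoImplicit false

namespace Pool.Agent.DIO.H98

open Pool.Agent.DIO

theorem prm (hNET : NetStatement) (hTHE : TheStatement) (hCLG : ClgStatement)
    (hQTE : QteStatement) (hQTT : QttStatement) (hQTS : QtsStatement) : PrmStatement := by
  obtain ⟨C0, h0⟩ := hTHE
  obtain ⟨C1, h1⟩ := hQTE
  obtain ⟨C2, h2⟩ := hQTT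
  obtain ⟨C3, h3⟩ := hQTS
  refine ⟨C0 + C1 + C2 + C3, ?_⟩
  intro a b c d hI hc
  obtain ⟨ha, hab, hbc, hcd, ⟨r, hr⟩, ⟨s, hs⟩, ⟨x, hx⟩, ⟨t, ht⟩, ⟨y, hy⟩, ⟨z, hz⟩, hirr⟩ := hI
  have hCtx : Ctx a b c d r s t (x : ℤ) (y : ℤ) (z : ℤ) := by
    refine ⟨ha, hab, hbc, hcd, hr.symm, hs.symm, ht.symm, ?_, ?_, ?_, ?_, ?_, ?_⟩
    · have : 0 < x := by
        rcases Nat.eq_zero_or_pos x with h | h
        · rw [h] at hx; omega
        · exact h
      exact_mod_cast this
    · have : 0 < y := by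
        rcases Nat.eq_zero_or_pos y with h | h
        · rw [h] at hy; omega
        · exact h
      exact_mod_cast this
    · have : 0 < z := by
        rcases Nat.eq_zero_or_pos z with h | h
        · rw [h] at hz; omega
        · exact h
      exact_mod_cast this
    · exact_mod_cast hx.symm
    · exact_mod_cast hy.symm
    · exact_mod_cast hz.symm
  rcases hNET a b c r s t ha hab hbc hr.symm hs.symm ht.symm with hE | ⟨g, u, v, w, hN⟩
  · exfalso
    have hU := h0 a b c r ⟨ha, hab, hr.symm, hE⟩ (by omega)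
    have hext : Extends a b c d :=
      ⟨by omega, by omega, by omega, by omega, ⟨x, hx⟩, ⟨y, hy⟩, ⟨z, hz⟩⟩
    have e1 : rst a b c = r * s * t := by
      unfold rst
      rw [hr, hs, ht, Nat.sqrt_eq, Nat.sqrt_eq, Nat.sqrt_eq]
    have hrZ : (r : ℤ) * r = a * b + 1 := by exact_mod_cast hr.symm
    have hsZ : (s : ℤ) * s = a * c + 1 := by exact_mod_cast hs.symm
    have htZ : (t : ℤ) * t = b * c + 1 := by exact_mod_cast ht.symm
    apply hirr
    unfold RegQ
    rcases hU d hext with h | h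
    · rw [e1] at h
      push_cast at h
      rw [h]
      -- `(a+b-c-d)^2 = 4 r^2 (cr+st)^2`
      have e2 : (c : ℤ) * (a + b + c + 2 * a * b * c + 2 * (r * s * t)) + 1 =
          (c * r + s * t) ^ 2 := by
        linear_combination (-(c : ℤ) ^ 2) * hrZ - ((t : ℤ) * t) * hsZ - ((a : ℤ) * c + 1) * htZ
      rw [e2]
      linear_combination (4 * (c * r + s * t : ℤ) ^ 2 - 4 * c ^ 2 * (a * b + 1) -
        8 * c * (r * s * t) - 4 * c ^ 2 * r ^ 2) * hrZ
    · rw [e1] at h
      push_cast at h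
      rw [h]
      have e2 : (c : ℤ) * (a + b + c + 2 * a * b * c - 2 * (r * s * t)) + 1 =
          (c * r - s * t) ^ 2 := by
        linear_combination (-(c : ℤ) ^ 2) * hrZ - ((t : ℤ) * t) * hsZ - ((a : ℤ) * c + 1) * htZ
      rw [e2]
      linear_combination (4 * (c * r - s * t : ℤ) ^ 2 - 4 * c ^ 2 * (a * b + 1) +
        8 * c * (r * s * t) - 4 * c ^ 2 * r ^ 2) * hrZ
  · rcases hCLG a b c d r s t g u v w x y z hCtx hN with
      ⟨f, W, F1, F2, ε, μ, ν, hT⟩ | ⟨ε, μ, ν, hT⟩ | ⟨ε, μ, ν, hT⟩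
    · obtain ⟨hf, hfg⟩ := h1 a b c d r s t g u v w x y z f W F1 F2 ε μ ν (by omega) hCtx hN
        hirr hT
      exact ⟨f, r, s, t, g, u, v, w, x, y, z, W, F1, F2, ε, μ, ν, hCtx, hN, hT, hf, hfg⟩
    · exact absurd hT (h3 a b c d r s t g u v w x y z ε μ ν (by omega) hCtx hN)
    · exact absurd hT (h2 a b c d r s t g u v w x y z ε μ ν (by omega) hCtx hN)

end Pool.Agent.DIO.H98
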